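import Pool.Agent.Lib.CR5.AllH
import Pool.Agent.Lib.CR5.AllI
import Pool.Agent.Lib.CR5.I.DefsN

/-!
# MP_3b98b0_an: strongly pseudoconvex CR manifolds of dimension five are locally embeddable

For every smooth manifold `M` of dimension five, every smooth strongly pseudoconvex CR structure of hypersurface
type on `M` and every point `p` there are a neighbourhood of `p` and a smooth embedding of it into `ℂ³` whose
components are CR functions.
-/

set_option autoImplicit false

open scoped Manifold ContDiff

namespace Pool.Agent.Results.MP_3b98b0_an.LocalEmbedding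

open Pool.Agent.CR5.Man

universe u

theorem result (M : Type u) [TopologicalSpace M] [ChartedSpace (EuclideanSpace ℝ (Fin 5)) M]
    [IsManifold 𝓘(ℝ, EuclideanSpace ℝ (Fin 5)) ∞ M]
    (S : CRStructure (EuclideanSpace ℝ (Fin 5)) M 2) (hS : StronglyPseudoconvex S) (p : M) :
    LocEmbC S p :=
  locEmbC_of (finalOf Pool.Agent.CR5.okCORE M S hS p)

end Pool.Agent.Results.MP_3b98b0_an.LocalEmbedding
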